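import Mathlib

set_option autoImplicit false

/-!
# Simply laced root lattices with a short grading
-/

namespace Pool.Agent.Helper62.AN

open Finset

/-- A positive definite lattice with a cocycle, a positive cone and a short grading. -/
structure Lat (n : ℕ) (Q : Type) [AddCommGroup Q] where
  /-- the scalar product -/
  B : Q → Q → ℤ
  Badd : ∀ x y z, B (x + y) z = B x z + B y z
  Bsymm : ∀ x y, B x y = B y x
  Bpos : ∀ x, x ≠ 0 → 0 < B x x
  /-- the cocycle -/
  ε : Q → Q → ℤ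
  εadd : ∀ x y z, ε (x + y) z = ε x z * ε y z
  εadd' : ∀ x y z, ε x (y + z) = ε x y * ε x z
  εsq : ∀ x y, ε x y * ε x y = 1
  εeven : ∀ x y, Even (B x y) → ε x y = ε y x
  εodd : ∀ x y, ¬ Even (B x y) → ε x y = -ε y x
  εroot : ∀ x, B x x = 2 → ε x x = -1
  /-- the positive elements -/
  pos : Q → Prop
  pos_add : ∀ x y, pos x → pos y → pos (x + y)
  pos_or : ∀ x, x ≠ 0 → pos x ∨ pos (-x)
  pos_zero : ¬ pos 0
  /-- the grading -/
  wt : Q →+ ℤ
  short : ∀ x, B x x = 2 → wt x ≤ 1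
  /-- the roots of degree zero -/
  R0 : Finset Q
  mem_R0 : ∀ x, x ∈ R0 ↔ B x x = 2 ∧ wt x = 0
  /-- the roots of degree one -/
  b : Fin n → Q
  binj : Function.Injective b
  bP : ∀ j, B (b j) (b j) = 2 ∧ wt (b j) = 1
  bsurj : ∀ x, B x x = 2 → wt x = 1 → ∃ j, b j = x

namespace Lat

variable {n : ℕ} {Q : Type} [AddCommGroup Q] (D : Lat n Q)

/-- the scalar product as a homomorphism -/
def Bh (z : Q) : Q →+ ℤ := AddMonoidHom.mk' (fun x => D.B x z) fun x y => D.Badd x y z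

theorem Bh_apply (x z : Q) : D.Bh z x = D.B x z := rfl

theorem B_zero (z : Q) : D.B 0 z = 0 := map_zero (D.Bh z)

theorem B_neg (x z : Q) : D.B (-x) z = -D.B x z := map_neg (D.Bh z) x

theorem B_sub (x y z : Q) : D.B (x - y) z = D.B x z - D.B y z := map_sub (D.Bh z) x y

theorem B_sum {ι : Type} (s : Finset ι) (f : ι → Q) (z : Q) :
    D.B (∑ i ∈ s, f i) z = ∑ i ∈ s, D.B (f i) z := map_sum (D.Bh z) f s

theorem B_add' (x y z : Q) : D.B z (x + y) = D.B z x + D.B z y := by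
  rw [D.Bsymm, D.Badd, D.Bsymm x, D.Bsymm y]

theorem B_zero' (z : Q) : D.B z 0 = 0 := by rw [D.Bsymm, B_zero]

theorem B_neg' (x z : Q) : D.B z (-x) = -D.B z x := by rw [D.Bsymm, B_neg, D.Bsymm]

theorem B_sub' (x y z : Q) : D.B z (x - y) = D.B z x - D.B z y := by
  rw [D.Bsymm, B_sub, D.Bsymm x, D.Bsymm y]

theorem norm_add (x y : Q) : D.B (x + y) (x + y) = D.B x x + 2 * D.B x y + D.B y y := by
  rw [D.Badd, B_add', B_add', D.Bsymm y x]
  ring

theorem norm_sub (x y : Q) : D.B (x - y) (x - y) = D.B x x - 2 * D.B x y + D.B y y := by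
  rw [B_sub, B_sub', B_sub', D.Bsymm y x]
  ring

theorem norm_neg (x : Q) : D.B (-x) (-x) = D.B x x := by
  rw [B_neg, B_neg', neg_neg]

theorem e_zero (z : Q) : D.ε 0 z = 1 := by
  have h := D.εadd 0 0 z
  rw [add_zero, D.εsq] at h
  exact h

theorem e_zero' (z : Q) : D.ε z 0 = 1 := by
  have h := D.εadd' z 0 0
  rw [add_zero, D.εsq] at h
  exact h

theorem e_neg (x z : Q) : D.ε (-x) z = D.ε x z := by
  have h := D.εadd x (-x) z
  rw [add_neg_cancel, e_zero] at h
  have h2 := D.εsq x z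
  calc D.ε (-x) z = (D.ε x z * D.ε x z) * D.ε (-x) z := by rw [h2, one_mul]
    _ = D.ε x z * (D.ε x z * D.ε (-x) z) := by ring
    _ = D.ε x z := by rw [← h, mul_one]

theorem e_neg' (x z : Q) : D.ε z (-x) = D.ε z x := by
  have h := D.εadd' z x (-x)
  rw [add_neg_cancel, e_zero'] at h
  have h2 := D.εsq z x
  calc D.ε z (-x) = (D.ε z x * D.ε z x) * D.ε z (-x) := by rw [h2, one_mul]
    _ = D.ε z x * (D.ε z x * D.ε z (-x)) := by ring
    _ = D.ε z x := by rw [← h, mul_one]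

theorem e_sub (x y z : Q) : D.ε (x - y) z = D.ε x z * D.ε y z := by
  rw [sub_eq_add_neg, D.εadd, e_neg]

theorem e_sub' (x y z : Q) : D.ε z (x - y) = D.ε z x * D.ε z y := by
  rw [sub_eq_add_neg, D.εadd', e_neg']

/-- products of two roots -/
theorem root_cases {x y : Q} (hx : D.B x x = 2) (hy : D.B y y = 2) (h1 : x ≠ y) (h2 : x ≠ -y) :
    D.B x y = -1 ∨ D.B x y = 0 ∨ D.B x y = 1 := by
  have h3 := D.Bpos (x - y) (sub_ne_zero.2 h1)
  have h4 := D.Bpos (x + y) (fun h => h2 (eq_neg_of_add_eq_zero_left h))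
  rw [norm_sub] at h3
  rw [norm_add] at h4
  omega

/-- the roots of degree zero -/
def IsR0 (x : Q) : Prop := D.B x x = 2 ∧ D.wt x = 0

/-- the roots of degree one -/
def IsP (x : Q) : Prop := D.B x x = 2 ∧ D.wt x = 1

theorem isP_b (j : Fin n) : D.IsP (D.b j) := D.bP j

theorem isR0_neg {x : Q} (hx : D.IsR0 x) : D.IsR0 (-x) :=
  ⟨by rw [norm_neg, hx.1], by rw [map_neg, hx.2, neg_zero]⟩

theorem isR0_ne_zero {x : Q} (hx : D.IsR0 x) : x ≠ 0 := by
  rintro rfl
  have := hx.1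
  rw [B_zero] at this
  omega

/-- products of two roots of degree one -/
theorem P_cases {x y : Q} (hx : D.IsP x) (hy : D.IsP y) (h : x ≠ y) :
    D.B x y = 0 ∨ D.B x y = 1 := by
  have h2 : x ≠ -y := by
    intro h2
    have h3 := hx.2
    rw [h2, map_neg, hy.2] at h3
    omega
  rcases D.root_cases hx.1 hy.1 h h2 with h3 | h3 | h3
  · exfalso
    have h4 := D.short (x + y) (by rw [norm_add, hx.1, hy.1, h3]; norm_num)
    rw [map_add, hx.2, hy.2] at h4
    omega
  · exact Or.inl h3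
  · exact Or.inr h3

theorem P_nonneg {x y : Q} (hx : D.IsP x) (hy : D.IsP y) : 0 ≤ D.B x y := by
  by_cases h : x = y
  · rw [h, hy.1]
    norm_num
  · rcases D.P_cases hx hy h with h | h <;> omega

/-- products of a root of degree zero and a root of degree one -/
theorem RP_cases {x y : Q} (hx : D.IsR0 x) (hy : D.IsP y) :
    D.B x y = -1 ∨ D.B x y = 0 ∨ D.B x y = 1 := by
  refine D.root_cases hx.1 hy.1 ?_ ?_
  · rintro rfl
    have h1 := hx.2
    have h2 := hy.2
    omega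
  · rintro rfl
    have h1 := hx.2
    have h2 := hy.2
    rw [map_neg] at h1
    omega

/-- products of two roots of degree zero -/
theorem RR_cases {x y : Q} (hx : D.IsR0 x) (hy : D.IsR0 y) (h1 : x ≠ y) (h2 : x ≠ -y) :
    D.B x y = -1 ∨ D.B x y = 0 ∨ D.B x y = 1 := D.root_cases hx.1 hy.1 h1 h2

theorem isP_add_iff {x y : Q} (hx : D.IsR0 x) (hy : D.IsP y) :
    D.IsP (x + y) ↔ D.B x y = -1 := by
  constructor
  · intro h
    have h1 := h.1
    rw [norm_add, hx.1, hy.1] at h1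
    omega
  · intro h
    refine ⟨?_, ?_⟩
    · rw [norm_add, hx.1, hy.1, h]
      norm_num
    · rw [map_add, hx.2, hy.2, zero_add]

theorem isP_sub_iff {x y : Q} (hx : D.IsR0 x) (hy : D.IsP y) :
    D.IsP (y - x) ↔ D.B x y = 1 := by
  have h := D.isP_add_iff (D.isR0_neg hx) hy
  rw [neg_add_eq_sub, B_neg] at h
  rw [h]
  omega

theorem isR0_add_iff {x y : Q} (hx : D.IsR0 x) (hy : D.IsR0 y) :
    D.IsR0 (x + y) ↔ D.B x y = -1 := by
  constructor
  · intro h
    have h1 := h.1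
    rw [norm_add, hx.1, hy.1] at h1
    omega
  · intro h
    refine ⟨?_, ?_⟩
    · rw [norm_add, hx.1, hy.1, h]
      norm_num
    · rw [map_add, hx.2, hy.2, zero_add]

theorem isR0_sub_iff {x y : Q} (hx : D.IsP x) (hy : D.IsP y) :
    D.IsR0 (x - y) ↔ D.B x y = 1 := by
  constructor
  · intro h
    have h1 := h.1
    rw [norm_sub, hx.1, hy.1] at h1
    omega
  · intro h
    refine ⟨?_, ?_⟩
    · rw [norm_sub, hx.1, hy.1, h]
      norm_num
    · rw [map_sub, hx.2, hy.2, sub_self]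

theorem exists_b {x : Q} (hx : D.IsP x) : ∃ j, D.b j = x := D.bsurj x hx.1 hx.2

/-- a root of degree zero is positive or negative, but not both -/
theorem not_pos_neg {x : Q} (h : D.pos x) : ¬ D.pos (-x) := by
  intro h'
  have := D.pos_add x (-x) h h'
  rw [add_neg_cancel] at this
  exact D.pos_zero this

/-! ### Thresholds -/

/-- the key inequality -/
theorem sum_nonneg_of_closed (X : Finset Q) {d : Q} (hd : D.B d d = 2)
    (h1 : ∀ x ∈ X, D.B x d = -1 ∨ D.B x d = 0 ∨ D.B x d = 1)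
    (h2 : ∀ x ∈ X, D.B x d = -1 → x + d ∈ X) : 0 ≤ ∑ x ∈ X, D.B x d := by
  classical
  have e1 : ∑ x ∈ X, D.B x d =
      ((X.filter fun x => D.B x d = 1).card : ℤ) - ((X.filter fun x => D.B x d = -1).card : ℤ) := by
    rw [card_filter, card_filter]
    push_cast
    rw [← sum_sub_distrib]
    refine sum_congr rfl fun x hx => ?_
    rcases h1 x hx with h | h | h <;> rw [h] <;> norm_num
  have e2 : (X.filter fun x => D.B x d = -1).card ≤ (X.filter fun x => D.B x d = 1).card := by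
    refine card_le_card_of_injOn (fun x => x + d) ?_ ?_
    · intro x hx
      rw [mem_coe, mem_filter] at hx ⊢
      refine ⟨h2 x hx.1 hx.2, ?_⟩
      rw [D.Badd, hx.2, hd]
      norm_num
    · intro x _ y _ hxy
      exact add_right_cancel hxy
  rw [e1]
  have : ((X.filter fun x => D.B x d = -1).card : ℤ) ≤ ((X.filter fun x => D.B x d = 1).card : ℤ) := by
    exact_mod_cast e2
  linarith

open Classical in
/-- the roots of degree one -/
noncomputable def P : Finset Q := univ.image D.b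

theorem mem_P {x : Q} : x ∈ D.P ↔ D.IsP x := by
  classical
  unfold P
  rw [mem_image]
  constructor
  · rintro ⟨j, _, rfl⟩
    exact D.bP j
  · intro h
    obtain ⟨j, hj⟩ := D.exists_b h
    exact ⟨j, mem_univ _, hj⟩

open Classical in
/-- the positive roots of degree zero -/
noncomputable def Rp : Finset Q := D.R0.filter D.pos

theorem mem_Rp {x : Q} : x ∈ D.Rp ↔ D.IsR0 x ∧ D.pos x := by
  classical
  unfold Rp
  rw [mem_filter, D.mem_R0]
  rfl

/-- upper sets -/
structure Upper (T : Finset Q) : Prop where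
  sub : T ⊆ D.P
  up : ∀ x ∈ T, ∀ y ∈ D.P, y - x ∈ D.Rp → y ∈ T

/-- the weight of an upper set -/
noncomputable def xT (T : Finset Q) : Q := ∑ x ∈ T, x + ∑ x ∈ T, x + ∑ x ∈ D.Rp, x - ∑ x ∈ D.P, x

theorem B_xT (T : Finset Q) (z : Q) : D.B (D.xT T) z =
    2 * ∑ x ∈ T, D.B x z + ∑ x ∈ D.Rp, D.B x z - ∑ x ∈ D.P, D.B x z := by
  unfold xT
  rw [B_sub, D.Badd, D.Badd, B_sum, B_sum, B_sum]
  ring

theorem xT_pos {T : Finset Q} (hT : D.Upper T) {d : Q} (hd : d ∈ D.Rp) :
    0 < D.B (D.xT T) d := by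
  classical
  have hd' := D.mem_Rp.1 hd
  have hR := hd'.1
  have h1 : 0 ≤ ∑ x ∈ T, D.B x d := by
    refine D.sum_nonneg_of_closed T hR.1 (fun x hx => ?_) (fun x hx h => ?_)
    · rw [D.Bsymm]
      exact D.RP_cases hR (D.mem_P.1 (hT.sub hx))
    · refine hT.up x hx (x + d) ?_ ?_
      · rw [D.mem_P, add_comm, D.isP_add_iff hR (D.mem_P.1 (hT.sub hx)), D.Bsymm, h]
      · rw [add_sub_cancel_left]
        exact hd
  have h2 : 0 ≤ ∑ x ∈ D.P, D.B x d := by
    refine D.sum_nonneg_of_closed D.P hR.1 (fun x hx => ?_) (fun x hx h => ?_)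
    · rw [D.Bsymm]
      exact D.RP_cases hR (D.mem_P.1 hx)
    · rw [D.mem_P, add_comm, D.isP_add_iff hR (D.mem_P.1 hx), D.Bsymm, h]
  have h3 : 0 ≤ ∑ x ∈ D.P, D.B x (-d) := by
    have hR' := D.isR0_neg hR
    refine D.sum_nonneg_of_closed D.P hR'.1 (fun x hx => ?_) (fun x hx h => ?_)
    · rw [D.Bsymm]
      exact D.RP_cases hR' (D.mem_P.1 hx)
    · rw [D.mem_P, add_comm, D.isP_add_iff hR' (D.mem_P.1 hx), D.Bsymm, h]
  have h4 : ∑ x ∈ D.P, D.B x (-d) = -∑ x ∈ D.P, D.B x d := by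
    rw [← sum_neg_distrib]
    exact sum_congr rfl fun x _ => D.B_neg' d x
  have h5 : ∑ x ∈ D.Rp, D.B x d = D.B d d + ∑ x ∈ D.Rp.erase d, D.B x d :=
    (add_sum_erase _ _ hd).symm
  have h6 : 0 ≤ ∑ x ∈ D.Rp.erase d, D.B x d := by
    refine D.sum_nonneg_of_closed _ hR.1 (fun x hx => ?_) (fun x hx h => ?_)
    · have hx' := mem_erase.1 hx
      have hx2 := D.mem_Rp.1 hx'.2
      refine D.RR_cases hx2.1 hR hx'.1 ?_
      rintro rfl
      exact D.not_pos_neg hd'.2 hx2.2
    · have hx' := mem_erase.1 hx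
      have hx2 := D.mem_Rp.1 hx'.2
      refine mem_erase.2 ⟨?_, D.mem_Rp.2 ⟨(D.isR0_add_iff hx2.1 hR).2 h,
        D.pos_add _ _ hx2.2 hd'.2⟩⟩
      intro h7
      have h8 : x = 0 := by simpa using h7
      exact D.isR0_ne_zero hx2.1 h8
  rw [B_xT, h5, hR.1]
  linarith

open Classical in
/-- the signs of the comparable elements -/
noncomputable def sg (z x : Q) : ℤ := if z - x ∈ D.Rp then 1 else if x - z ∈ D.Rp then -1 else 0

theorem sum_Rp {z : Q} (hz : D.IsP z) : ∑ x ∈ D.Rp, D.B x z = ∑ x ∈ D.P, D.sg z x := by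
  classical
  have e1 : ∑ x ∈ D.Rp, D.B x z = ((D.Rp.filter fun x => D.B x z = 1).card : ℤ) -
      ((D.Rp.filter fun x => D.B x z = -1).card : ℤ) := by
    rw [card_filter, card_filter]
    push_cast
    rw [← sum_sub_distrib]
    refine sum_congr rfl fun x hx => ?_
    rcases D.RP_cases (D.mem_Rp.1 hx).1 hz with h | h | h <;> rw [h] <;> norm_num
  have e2 : ∑ x ∈ D.P, D.sg z x = ((D.P.filter fun x => z - x ∈ D.Rp).card : ℤ) -
      ((D.P.filter fun x => x - z ∈ D.Rp).card : ℤ) := by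
    rw [card_filter, card_filter]
    push_cast
    rw [← sum_sub_distrib]
    refine sum_congr rfl fun x hx => ?_
    unfold sg
    by_cases h1 : z - x ∈ D.Rp
    · have h2 : x - z ∉ D.Rp := by
        intro h2
        have h3 := D.not_pos_neg (D.mem_Rp.1 h1).2
        rw [neg_sub] at h3
        exact h3 (D.mem_Rp.1 h2).2
      rw [if_pos h1, if_pos h1, if_neg h2]
      norm_num
    · by_cases h2 : x - z ∈ D.Rp
      · rw [if_neg h1, if_pos h2, if_neg h1, if_pos h2]
        norm_num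
      · rw [if_neg h1, if_neg h2, if_neg h1, if_neg h2]
        norm_num
  have e3 : (D.Rp.filter fun x => D.B x z = 1).card = (D.P.filter fun x => z - x ∈ D.Rp).card := by
    refine card_nbij' (fun x => z - x) (fun x => z - x) ?_ ?_ ?_ ?_
    · intro x hx
      rw [mem_coe, mem_filter] at hx ⊢
      refine ⟨D.mem_P.2 ((D.isP_sub_iff (D.mem_Rp.1 hx.1).1 hz).2 hx.2), ?_⟩
      rw [sub_sub_cancel]
      exact hx.1
    · intro x hx
      rw [mem_coe, mem_filter] at hx ⊢
      refine ⟨hx.2, ?_⟩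
      rw [← D.isP_sub_iff (D.mem_Rp.1 hx.2).1 hz, sub_sub_cancel]
      exact D.mem_P.1 hx.1
    · intro x _
      exact sub_sub_cancel _ _
    · intro x _
      exact sub_sub_cancel _ _
  have e4 : (D.Rp.filter fun x => D.B x z = -1).card =
      (D.P.filter fun x => x - z ∈ D.Rp).card := by
    refine card_nbij' (fun x => x + z) (fun x => x - z) ?_ ?_ ?_ ?_
    · intro x hx
      rw [mem_coe, mem_filter] at hx ⊢
      refine ⟨D.mem_P.2 ((D.isP_add_iff (D.mem_Rp.1 hx.1).1 hz).2 hx.2), ?_⟩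
      rw [add_sub_cancel_right]
      exact hx.1
    · intro x hx
      rw [mem_coe, mem_filter] at hx ⊢
      refine ⟨hx.2, ?_⟩
      rw [← D.isP_add_iff (D.mem_Rp.1 hx.2).1 hz, sub_add_cancel]
      exact D.mem_P.1 hx.1
    · intro x _
      exact add_sub_cancel_right _ _
    · intro x _
      exact sub_add_cancel _ _
  rw [e1, e2, e3, e4]

open Classical in
/-- the formula for the weight -/
theorem B_xT_eq {T : Finset Q} (hT : T ⊆ D.P) {z : Q} (hz : D.IsP z) : D.B (D.xT T) z =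
    ∑ x ∈ D.P, ((if x ∈ T then D.B x z else -D.B x z) + D.sg z x) := by
  rw [B_xT, D.sum_Rp hz, sum_add_distrib]
  have e1 : ∑ x ∈ T, D.B x z = ∑ x ∈ D.P, if x ∈ T then D.B x z else 0 := by
    rw [← sum_filter]
    congr 1
    ext x
    rw [mem_filter]
    exact ⟨fun h => ⟨hT h, h⟩, fun h => h.2⟩
  rw [e1, mul_sum]
  have e2 : ∑ x ∈ D.P, (if x ∈ T then D.B x z else -D.B x z) =
      ∑ x ∈ D.P, (2 * if x ∈ T then D.B x z else 0) - ∑ x ∈ D.P, D.B x z := by
    rw [← sum_sub_distrib]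
    refine sum_congr rfl fun x _ => ?_
    split_ifs <;> ring
  rw [e2]
  ring

theorem B_eq_one_of_sub {z x : Q} (hz : D.IsP z) (hx : D.IsP x) (h : z - x ∈ D.Rp) :
    D.B x z = 1 := by
  rw [D.Bsymm]
  exact (D.isR0_sub_iff hz hx).1 (D.mem_Rp.1 h).1

theorem sub_or {z x : Q} (hz : D.IsP z) (hx : D.IsP x) (h1 : z - x ∉ D.Rp) (h2 : x - z ∉ D.Rp)
    (hne : x ≠ z) : D.B x z = 0 := by
  rcases D.P_cases hx hz hne with h | h
  · exact h
  · exfalso
    have h3 := (D.isR0_sub_iff hx hz).2 h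
    rcases D.pos_or (x - z) (sub_ne_zero.2 hne) with h4 | h4
    · exact h2 (D.mem_Rp.2 ⟨h3, h4⟩)
    · apply h1
      have h5 := D.isR0_neg h3
      rw [neg_sub] at h4 h5
      exact D.mem_Rp.2 ⟨h5, h4⟩

theorem sg_self (z : Q) : D.sg z z = 0 := by
  classical
  have h : z - z ∉ D.Rp := by
    rw [sub_self]
    intro h
    exact D.pos_zero (D.mem_Rp.1 h).2
  unfold sg
  rw [if_neg h, if_neg h]

theorem xT_mem {T : Finset Q} (hT : D.Upper T) {z : Q} (hz : z ∈ T) : 0 < D.B (D.xT T) z := by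
  classical
  have hzP := D.mem_P.1 (hT.sub hz)
  rw [D.B_xT_eq hT.sub hzP, ← add_sum_erase _ _ (hT.sub hz), if_pos hz, D.sg_self, hzP.1]
  have : 0 ≤ ∑ x ∈ D.P.erase z, ((if x ∈ T then D.B x z else -D.B x z) + D.sg z x) := by
    refine sum_nonneg fun x hx => ?_
    have hx1 := mem_erase.1 hx
    have hxP := D.mem_P.1 hx1.2
    unfold sg
    by_cases h1 : z - x ∈ D.Rp
    · have h3 := D.B_eq_one_of_sub hzP hxP h1
      rw [h3, if_pos h1]
      split_ifs <;> norm_num
    · by_cases h2 : x - z ∈ D.Rp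
      · have h3 := D.B_eq_one_of_sub hxP hzP h2
        rw [D.Bsymm] at h3
        have h4 := hT.up z hz x hx1.2 h2
        rw [h3, if_neg h1, if_pos h2, if_pos h4]
        norm_num
      · have h3 := D.sub_or hzP hxP h1 h2 hx1.1
        rw [h3, if_neg h1, if_neg h2]
        split_ifs <;> norm_num
  linarith

theorem xT_notMem {T : Finset Q} (hT : D.Upper T) {z : Q} (hz : z ∈ D.P) (hzT : z ∉ T) :
    D.B (D.xT T) z < 0 := by
  classical
  have hzP := D.mem_P.1 hz
  rw [D.B_xT_eq hT.sub hzP, ← add_sum_erase _ _ hz, if_neg hzT, D.sg_self, hzP.1]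
  have : ∑ x ∈ D.P.erase z, ((if x ∈ T then D.B x z else -D.B x z) + D.sg z x) ≤ 0 := by
    refine sum_nonpos fun x hx => ?_
    have hx1 := mem_erase.1 hx
    have hxP := D.mem_P.1 hx1.2
    unfold sg
    by_cases h1 : z - x ∈ D.Rp
    · have h3 := D.B_eq_one_of_sub hzP hxP h1
      have h4 : x ∉ T := fun h4 => hzT (hT.up x h4 z hz h1)
      rw [h3, if_pos h1, if_neg h4]
      norm_num
    · by_cases h2 : x - z ∈ D.Rp
      · have h3 := D.B_eq_one_of_sub hxP hzP h2
        rw [D.Bsymm] at h3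
        rw [h3, if_neg h1, if_pos h2]
        split_ifs <;> norm_num
      · have h3 := D.sub_or hzP hxP h1 h2 hx1.1
        rw [h3, if_neg h1, if_neg h2]
        split_ifs <;> norm_num
  linarith

end Lat

end Pool.Agent.Helper62.AN
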