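import Pool.Agent.Helper62.AN.A1
import Pool.Graph.R_pool_sql_team_seeded_b677cdb8.E8helper33.BE.G6

set_option autoImplicit false

/-!
# The Levi algebra and its action on the roots of degree one
-/

namespace Pool.Agent.Helper62.AN

open Finset Pool.Agent.E8helper33.BE

noncomputable section

namespace Lat

variable {n : ℕ} {Q : Type} [AddCommGroup Q] (D : Lat n Q)

/-- the roots of degree zero, as a type -/
abbrev RT : Type := {x : Q // D.IsR0 x}

/-- the generators -/
abbrev Gn : Type := Q ⊕ D.RT

/-- the Levi algebra, on its generators -/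
abbrev LV : Type := D.Gn →₀ ℂ

/-- the negative of a root -/
def ngR (α : D.RT) : D.RT := ⟨-α.1, D.isR0_neg α.2⟩

open Classical in
/-- the structure constants -/
def br0 : D.Gn → D.Gn → D.LV
  | Sum.inl _, Sum.inl _ => 0
  | Sum.inl x, Sum.inr α => Finsupp.single (Sum.inr α) (D.B x α.1 : ℂ)
  | Sum.inr α, Sum.inl x => Finsupp.single (Sum.inr α) (-(D.B x α.1 : ℂ))
  | Sum.inr α, Sum.inr β =>
      if h : D.B α.1 β.1 = -1 then
        Finsupp.single (Sum.inr ⟨α.1 + β.1, (D.isR0_add_iff α.2 β.2).2 h⟩) (D.ε α.1 β.1 : ℂ)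
      else if β.1 = -α.1 then Finsupp.single (Sum.inl α.1) (-1) else 0

/-- the bracket -/
def brL : D.LV →ₗ[ℂ] D.LV →ₗ[ℂ] D.LV :=
  Finsupp.linearCombination ℂ fun i => Finsupp.linearCombination ℂ fun j => D.br0 i j

theorem brL_single (i j : D.Gn) (a c : ℂ) :
    D.brL (Finsupp.single i a) (Finsupp.single j c) = (a * c) • D.br0 i j := by
  unfold brL
  rw [Finsupp.linearCombination_single, LinearMap.smul_apply, Finsupp.linearCombination_single,
    smul_smul]

/-- the relations of the Chevalley basis -/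
structure Rel {A : Type*} [Ring A] [Algebra ℂ A] (H E : Q → A) : Prop where
  HH : ∀ x y, H x * H y = H y * H x
  HE : ∀ x α, D.IsR0 α → H x * E α - E α * H x = (D.B x α : ℂ) • E α
  EE : ∀ α β, D.IsR0 α → D.IsR0 β → D.B α β = -1 →
    E α * E β - E β * E α = (D.ε α β : ℂ) • E (α + β)
  EF : ∀ α, D.IsR0 α → E α * E (-α) - E (-α) * E α = -H α
  E0 : ∀ α β, D.IsR0 α → D.IsR0 β → 0 ≤ D.B α β → E α * E β = E β * E α

/-- the images of the generators -/
def gen {A : Type*} (H E : Q → A) : D.Gn → A := Sum.elim H fun α => E α.1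

variable {D}

theorem Rel.br0 {A : Type*} [Ring A] [Algebra ℂ A] {H E : Q → A} (h : D.Rel H E) (i j : D.Gn) :
    Finsupp.linearCombination ℂ (D.gen H E) (D.br0 i j) =
      D.gen H E i * D.gen H E j - D.gen H E j * D.gen H E i := by
  classical
  rcases i with x | α <;> rcases j with y | β
  · show Finsupp.linearCombination ℂ (D.gen H E) 0 = H x * H y - H y * H x
    rw [map_zero, h.HH x y, sub_self]
  · show Finsupp.linearCombination ℂ (D.gen H E) (Finsupp.single (Sum.inr β) (D.B x β.1 : ℂ)) =
      H x * E β.1 - E β.1 * H x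
    rw [Finsupp.linearCombination_single, h.HE x β.1 β.2]
    rfl
  · show Finsupp.linearCombination ℂ (D.gen H E) (Finsupp.single (Sum.inr α) (-(D.B y α.1 : ℂ))) =
      E α.1 * H y - H y * E α.1
    rw [Finsupp.linearCombination_single, ← neg_sub, h.HE y α.1 α.2, neg_smul]
    rfl
  · show Finsupp.linearCombination ℂ (D.gen H E) (D.br0 (Sum.inr α) (Sum.inr β)) =
      E α.1 * E β.1 - E β.1 * E α.1
    rw [Lat.br0]
    by_cases h1 : D.B α.1 β.1 = -1
    · rw [dif_pos h1, Finsupp.linearCombination_single, h.EE α.1 β.1 α.2 β.2 h1]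
      rfl
    · rw [dif_neg h1]
      by_cases h2 : β.1 = -α.1
      · rw [if_pos h2, Finsupp.linearCombination_single, h2, h.EF α.1 α.2, neg_smul, one_smul]
        rfl
      · rw [if_neg h2, map_zero]
        have h3 : 0 ≤ D.B α.1 β.1 := by
          by_cases h4 : α.1 = β.1
          · rw [h4, β.2.1]
            norm_num
          · rcases D.RR_cases α.2 β.2 h4 (fun h5 => h2 (by rw [h5, neg_neg])) with h5 | h5 | h5
            · exact absurd h5 h1
            · omega
            · omega
        rw [h.E0 α.1 β.1 α.2 β.2 h3, sub_self]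

theorem Rel.br {A : Type*} [Ring A] [Algebra ℂ A] {H E : Q → A} (h : D.Rel H E) (x y : D.LV) :
    Finsupp.linearCombination ℂ (D.gen H E) (D.brL x y) =
      Finsupp.linearCombination ℂ (D.gen H E) x * Finsupp.linearCombination ℂ (D.gen H E) y -
      Finsupp.linearCombination ℂ (D.gen H E) y * Finsupp.linearCombination ℂ (D.gen H E) x := by
  induction x using Finsupp.induction_linear with
  | zero =>
    simp only [map_zero, LinearMap.zero_apply, zero_mul, mul_zero, sub_zero]
  | add x x' hx hx' =>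
    rw [map_add, LinearMap.add_apply, map_add, hx, hx', map_add, add_mul, mul_add]
    abel
  | single i a =>
    induction y using Finsupp.induction_linear with
    | zero =>
      simp only [map_zero, zero_mul, mul_zero, sub_zero]
    | add y y' hy hy' =>
      rw [map_add, map_add, hy, hy', map_add, add_mul, mul_add]
      abel
    | single j c =>
      rw [brL_single, map_smul, h.br0, Finsupp.linearCombination_single,
        Finsupp.linearCombination_single, smul_mul_smul_comm, smul_mul_smul_comm, smul_sub,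
        mul_comm c a]

variable (D)

/-! ### The action on the roots of degree one -/

/-- the diagonal matrices -/
def Hm0 (x : Q) : Matrix (Fin n) (Fin n) ℂ := Matrix.diagonal fun j => (D.B x (D.b j) : ℂ)

open Classical in
/-- the root matrices -/
def Em0 (α : Q) : Matrix (Fin n) (Fin n) ℂ :=
  Matrix.of fun i j => if D.b i = α + D.b j then (D.ε α (D.b j) : ℂ) else 0

theorem Em0_apply (α : Q) (i j : Fin n) [Decidable (D.b i = α + D.b j)] :
    D.Em0 α i j = if D.b i = α + D.b j then (D.ε α (D.b j) : ℂ) else 0 := by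
  unfold Em0
  rw [Matrix.of_apply]
  congr

open Classical in
theorem Em0_mul {α β : Q} (hβ : D.IsR0 β) (i k : Fin n) :
    (D.Em0 α * D.Em0 β) i k = if D.b i = α + (β + D.b k) ∧ D.B β (D.b k) = -1 then
      ((D.ε α (β + D.b k) * D.ε β (D.b k) : ℤ) : ℂ) else 0 := by
  rw [Matrix.mul_apply]
  by_cases h : D.B β (D.b k) = -1
  · obtain ⟨j, hj⟩ := D.exists_b ((D.isP_add_iff hβ (D.isP_b k)).2 h)
    rw [sum_eq_single j]
    · rw [Em0_apply, Em0_apply, if_pos hj, hj]
      by_cases h2 : D.b i = α + (β + D.b k)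
      · rw [if_pos h2, if_pos ⟨h2, h⟩]
        push_cast
        rfl
      · rw [if_neg h2, if_neg (fun h3 => h2 h3.1), zero_mul]
    · intro l _ hl
      rw [Em0_apply, Em0_apply, if_neg (fun h3 : D.b l = β + D.b k => hl (D.binj (h3.trans hj.symm))),
        mul_zero]
    · simp
  · rw [if_neg (fun h3 => h h3.2)]
    refine sum_eq_zero fun j _ => ?_
    rw [Em0_apply D β, if_neg, mul_zero]
    intro h3
    exact h ((D.isP_add_iff hβ (D.isP_b k)).1 (h3 ▸ D.isP_b j))

theorem rel_tau : D.Rel D.Hm0 D.Em0 where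
  HH x y := by
    unfold Hm0
    rw [Matrix.diagonal_mul_diagonal, Matrix.diagonal_mul_diagonal]
    congr 1
    ext j
    exact mul_comm _ _
  HE x α _ := by
    classical
    ext i j
    unfold Hm0
    rw [Matrix.sub_apply, Matrix.diagonal_mul, Matrix.mul_diagonal, Matrix.smul_apply, Em0_apply]
    by_cases h : D.b i = α + D.b j
    · rw [if_pos h, h, B_add', smul_eq_mul]
      push_cast
      ring
    · rw [if_neg h, mul_zero, zero_mul, sub_zero, smul_zero]
  EE α β hα hβ h := by
    classical
    ext i k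
    rw [Matrix.sub_apply, Em0_mul D hβ, Em0_mul D hα, Matrix.smul_apply, Em0_apply]
    have e1 : α + (β + D.b k) = α + β + D.b k := (add_assoc _ _ _).symm
    have e2 : β + (α + D.b k) = α + β + D.b k := by rw [add_left_comm, add_assoc]
    by_cases h1 : D.b i = α + β + D.b k
    · have h2 := (D.isP_add_iff ((D.isR0_add_iff hα hβ).2 h) (D.isP_b k)).1 (h1 ▸ D.isP_b i)
      rw [D.Badd] at h2
      have hodd : D.ε β α = -D.ε α β := by
        rw [D.εodd β α]
        rw [D.Bsymm, h]
        decide
      rw [if_pos h1, smul_eq_mul]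
      have hs1 := D.εsq α β
      rcases D.RP_cases hα (D.isP_b k) with h3 | h3 | h3
      · have h4 : D.B β (D.b k) ≠ -1 := by omega
        rw [if_neg (fun h5 => h4 h5.2), if_pos ⟨h1.trans e2.symm, h3⟩, D.εadd', D.εadd, hodd]
        push_cast
        ring
      · have h4 : D.B β (D.b k) = -1 := by omega
        rw [if_pos ⟨h1.trans e1.symm, h4⟩, if_neg (fun h5 => by omega), D.εadd', D.εadd]
        push_cast
        ring
      · exfalso
        rcases D.RP_cases hβ (D.isP_b k) with h4 | h4 | h4 <;> omega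
    · rw [if_neg h1, if_neg (fun h5 => h1 (h5.1.trans e1)), if_neg (fun h5 => h1 (h5.1.trans e2)),
        sub_zero, smul_zero]
  EF α hα := by
    classical
    have hα' := D.isR0_neg hα
    ext i k
    rw [Matrix.sub_apply, Em0_mul D hα', Em0_mul D hα, Matrix.neg_apply]
    unfold Hm0
    rw [Matrix.diagonal_apply, add_neg_cancel_left, neg_add_cancel_left, B_neg]
    by_cases h1 : i = k
    · subst h1
      rw [if_pos rfl]
      have hr := D.εroot α hα.1
      have hs := D.εsq α (D.b i)
      have e1 : D.ε α (-α + D.b i) * D.ε (-α) (D.b i) = -1 := by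
        rw [D.εadd', e_neg', e_neg, hr, mul_assoc, hs]
        norm_num
      have e2 : D.ε (-α) (α + D.b i) * D.ε α (D.b i) = -1 := by
        rw [D.εadd', e_neg, e_neg, hr, mul_assoc, hs]
        norm_num
      rw [e1, e2]
      rcases D.RP_cases hα (D.isP_b i) with h3 | h3 | h3
      · rw [h3, if_neg (by rintro ⟨-, h⟩; omega), if_pos ⟨rfl, rfl⟩]
        norm_num
      · rw [h3, if_neg (by rintro ⟨-, h⟩; omega), if_neg (by rintro ⟨-, h⟩; omega)]
        norm_num
      · rw [h3, if_pos ⟨rfl, rfl⟩, if_neg (by rintro ⟨-, h⟩; omega)]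
        norm_num
    · have h2 : D.b i ≠ D.b k := fun h => h1 (D.binj h)
      rw [if_neg (fun h => h2 h.1), if_neg (fun h => h2 h.1), if_neg h1, sub_zero, neg_zero]
  E0 α β hα hβ h := by
    classical
    ext i k
    rw [Em0_mul D hβ, Em0_mul D hα]
    have e1 : α + (β + D.b k) = β + (α + D.b k) := add_left_comm _ _ _
    by_cases h1 : D.b i = α + (β + D.b k)
    · have h2 := (D.isP_b i).1
      rw [h1, norm_add, norm_add, hα.1, hβ.1, (D.isP_b k).1, B_add'] at h2
      have h3 : D.B α (D.b k) = -1 ∧ D.B β (D.b k) = -1 ∧ D.B α β = 0 := by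
        rcases D.RP_cases hα (D.isP_b k) with h3 | h3 | h3 <;>
          rcases D.RP_cases hβ (D.isP_b k) with h4 | h4 | h4 <;> omega
      rw [if_pos ⟨h1, h3.2.1⟩, if_pos ⟨h1.trans e1, h3.1⟩, D.εadd', D.εadd',
        D.εeven α β (by rw [h3.2.2]; decide)]
      congr 1
      ring
    · rw [if_neg (fun h5 => h1 h5.1), if_neg (fun h5 => h1 (h5.1.trans e1.symm))]

/-- the action on the roots of degree one -/
def tau : D.LV →ₗ[ℂ] Matrix (Fin n) (Fin n) ℂ :=
  Finsupp.linearCombination ℂ (D.gen D.Hm0 D.Em0)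

/-- the adjoint generators -/
def nu : D.Gn → D.Gn := Sum.map id D.ngR

/-- the signs of the adjoint generators -/
def sn : D.Gn → ℂ := Sum.elim (fun _ => 1) fun _ => -1

/-- the adjoint -/
def stH : D.LV →+ D.LV :=
  Finsupp.liftAddHom fun i => (Finsupp.singleAddHom (D.nu i)).comp
    ((AddMonoidHom.mulLeft (D.sn i)).comp (starRingEnd ℂ).toAddMonoidHom)

theorem stH_single (i : D.Gn) (c : ℂ) :
    D.stH (Finsupp.single i c) = Finsupp.single (D.nu i) (D.sn i * (starRingEnd ℂ) c) := by
  unfold stH
  rw [Finsupp.liftAddHom_apply_single]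
  rfl

theorem nu_nu (i : D.Gn) : D.nu (D.nu i) = i := by
  rcases i with x | α
  · rfl
  · show Sum.inr (D.ngR (D.ngR α)) = Sum.inr α
    congr 1
    exact Subtype.ext (neg_neg _)

theorem sn_nu (i : D.Gn) : D.sn (D.nu i) = D.sn i := by
  rcases i with x | α <;> rfl

theorem sn_conj (i : D.Gn) : (starRingEnd ℂ) (D.sn i) = D.sn i := by
  rcases i with x | α
  · show (starRingEnd ℂ) (1 : ℂ) = 1
    simp
  · show (starRingEnd ℂ) (-1 : ℂ) = -1
    simp

theorem sn_sq (i : D.Gn) : D.sn i * D.sn i = 1 := by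
  rcases i with x | α
  · show (1 : ℂ) * 1 = 1
    norm_num
  · show (-1 : ℂ) * -1 = 1
    norm_num

theorem stH_stH (x : D.LV) : D.stH (D.stH x) = x := by
  induction x using Finsupp.induction_linear with
  | zero => rw [map_zero, map_zero]
  | add x y hx hy => rw [map_add, map_add, hx, hy]
  | single i c =>
    rw [stH_single, stH_single, nu_nu, sn_nu, map_mul, sn_conj, Complex.conj_conj, ← mul_assoc,
      sn_sq, one_mul]

theorem gen_star (i : D.Gn) :
    (D.gen D.Hm0 D.Em0 i).conjTranspose = D.sn i • D.gen D.Hm0 D.Em0 (D.nu i) := by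
  classical
  rcases i with x | α
  · show (D.Hm0 x).conjTranspose = (1 : ℂ) • D.Hm0 x
    unfold Hm0
    rw [Matrix.diagonal_conjTranspose, one_smul]
    congr 1
    ext j
    simp
  · show (D.Em0 α.1).conjTranspose = (-1 : ℂ) • D.Em0 (-α.1)
    ext i j
    rw [Matrix.conjTranspose_apply, Matrix.smul_apply, Em0_apply, Em0_apply]
    by_cases h : D.b j = α.1 + D.b i
    · have h2 : D.b i = -α.1 + D.b j := by rw [h, neg_add_cancel_left]
      rw [if_pos h, if_pos h2, h, D.εadd', e_neg, e_neg, D.εroot α.1 α.2.1]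
      simp
    · have h2 : ¬ D.b i = -α.1 + D.b j := fun h2 => h (by rw [h2, add_neg_cancel_left])
      rw [if_neg h, if_neg h2]
      simp

theorem tau_st (x : D.LV) : D.tau (D.stH x) = (D.tau x).conjTranspose := by
  induction x using Finsupp.induction_linear with
  | zero => rw [map_zero, map_zero, Matrix.conjTranspose_zero]
  | add x y hx hy => rw [map_add, map_add, map_add, hx, hy, Matrix.conjTranspose_add]
  | single i c =>
    unfold tau
    rw [stH_single, Finsupp.linearCombination_single, Finsupp.linearCombination_single,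
      Matrix.conjTranspose_smul, gen_star, smul_smul]
    congr 1
    rw [mul_comm]
    rfl

/-- **The Levi algebra** with its generators. -/
def ld : LD n D.LV where
  br x y := D.brL x y
  st := D.stH
  τ := D.tau
  Lo := {x | ∃ (α : D.RT) (c : ℂ), D.pos (-α.1) ∧ x = Finsupp.single (Sum.inr α) c}
  Di := {x | ∃ (y : Q) (c : ℂ), x = Finsupp.single (Sum.inl y) c}
  Up := {x | ∃ (α : D.RT) (c : ℂ), D.pos α.1 ∧ x = Finsupp.single (Sum.inr α) c}
  span := by
    rw [eq_top_iff]
    intro x _
    induction x using Finsupp.induction_linear with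
    | zero => exact Submodule.zero_mem _
    | add x y hx hy => exact Submodule.add_mem _ (hx Submodule.mem_top) (hy Submodule.mem_top)
    | single i c =>
      refine Submodule.subset_span ?_
      rcases i with y | α
      · exact Or.inr (Or.inl ⟨y, c, rfl⟩)
      · rcases D.pos_or α.1 (D.isR0_ne_zero α.2) with h | h
        · exact Or.inr (Or.inr ⟨α, c, h, rfl⟩)
        · exact Or.inl ⟨α, c, h, rfl⟩
  τbr x y := D.rel_tau.br x y
  τst := D.tau_st
  stst := D.stH_stH
  stLo := by
    rintro x ⟨α, c, h, rfl⟩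
    rw [stH_single]
    exact ⟨D.ngR α, _, h, rfl⟩

end Lat

end

end Pool.Agent.Helper62.AN
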