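import Pool.Agent.Helper62.AN.A2

set_option autoImplicit false

/-!
# The highest weight vectors in the exterior algebra of the roots of degree one
-/

namespace Pool.Agent.Helper62.AN

open Finset Pool.Agent.W650 Pool.Agent.E8helper33.BE

noncomputable section

namespace Lat

variable {n : ℕ} {Q : Type} [AddCommGroup Q] (D : Lat n Q)

open Classical in
/-- the coefficients of the quadratic operator -/
def co (i j k l : Fin n) : ℂ :=
  if D.b k - D.b l = D.b j - D.b i ∧ D.b k - D.b l ∈ D.Rp then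
    (D.ε (D.b k - D.b l) (D.b i + D.b l) : ℂ) else 0

theorem e_double (x y : Q) : D.ε x (y + y) = 1 := by
  rw [D.εadd', D.εsq]

theorem co_pair (i j k l : Fin n) (h : D.b i + D.b k = D.b j + D.b l)
    (h1 : D.IsR0 (D.b k - D.b l)) :
    D.co i j k l + D.co k l i j = (D.ε (D.b k - D.b l) (D.b i + D.b l) : ℂ) := by
  classical
  have e1 : D.b k - D.b l = D.b j - D.b i := by
    rw [sub_eq_sub_iff_add_eq_add, add_comm, h]
  have e2 : D.b i - D.b j = -(D.b k - D.b l) := by rw [e1, neg_sub]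
  have e3 : D.b i - D.b j = D.b l - D.b k := by rw [e2, neg_sub]
  unfold co
  rcases D.pos_or _ (D.isR0_ne_zero h1) with h2 | h2
  · have h3 : D.b i - D.b j ∉ D.Rp := by
      rw [e2]
      intro h3
      exact D.not_pos_neg h2 (D.mem_Rp.1 h3).2
    rw [if_pos ⟨e1, D.mem_Rp.2 ⟨h1, h2⟩⟩, if_neg (fun h4 => h3 h4.2), add_zero]
  · have h3 : D.b k - D.b l ∉ D.Rp := by
      intro h3
      exact D.not_pos_neg (D.mem_Rp.1 h3).2 h2
    have h4 : D.b i - D.b j ∈ D.Rp := by
      rw [e2]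
      exact D.mem_Rp.2 ⟨D.isR0_neg h1, h2⟩
    rw [if_neg (fun h5 => h3 h5.2), if_pos ⟨e3, h4⟩, zero_add]
    congr 1
    have e4 : D.b k + D.b j = (D.b i + D.b l) + ((D.b k - D.b l) + (D.b k - D.b l)) := by
      have : D.b j = D.b i + (D.b k - D.b l) := by rw [e1]; abel
      rw [this]
      abel
    rw [e2, e_neg, e4, D.εadd', e_double, mul_one]

theorem co_zero (i j k l : Fin n) (h : D.b i + D.b k ≠ D.b j + D.b l) : D.co i j k l = 0 := by
  classical
  unfold co
  rw [if_neg]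
  rintro ⟨h1, -⟩
  apply h
  rw [sub_eq_sub_iff_add_eq_add] at h1
  rw [add_comm, h1]

/-- **The exchange identity** -/
theorem co_id (i j k l : Fin n) (h1 : i ≠ l) (h2 : k ≠ l) :
    D.co i j k l + D.co k l i j = D.co k j i l + D.co i l k j := by
  by_cases h : D.b i + D.b k = D.b j + D.b l
  · have hil := D.P_cases (D.isP_b i) (D.isP_b l) (fun h' => h1 (D.binj h'))
    have hkl := D.P_cases (D.isP_b k) (D.isP_b l) (fun h' => h2 (D.binj h'))
    have hjl := D.P_nonneg (D.isP_b j) (D.isP_b l)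
    have e1 := congrArg (fun x => D.B x (D.b l)) h
    simp only [D.Badd] at e1
    rw [(D.isP_b l).1] at e1
    have hil1 : D.B (D.b i) (D.b l) = 1 := by omega
    have hkl1 : D.B (D.b k) (D.b l) = 1 := by omega
    have hjl0 : D.B (D.b j) (D.b l) = 0 := by omega
    have e2 := congrArg (fun x => D.B x x) h
    simp only [norm_add] at e2
    rw [(D.isP_b l).1, (D.isP_b i).1, (D.isP_b j).1, (D.isP_b k).1, hjl0] at e2
    have hik : D.B (D.b i) (D.b k) = 0 := by omega
    rw [D.co_pair i j k l h ((D.isR0_sub_iff (D.isP_b k) (D.isP_b l)).2 hkl1),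
      D.co_pair k j i l (by rw [add_comm, h]) ((D.isR0_sub_iff (D.isP_b i) (D.isP_b l)).2 hil1)]
    congr 1
    rw [e_sub, e_sub, D.εadd', D.εadd', D.εadd', D.εadd',
      D.εeven (D.b k) (D.b i) (by rw [D.Bsymm, hik]; decide),
      D.εodd (D.b k) (D.b l) (by rw [hkl1]; decide),
      D.εodd (D.b l) (D.b i) (by rw [D.Bsymm, hil1]; decide)]
    ring
  · rw [D.co_zero i j k l h, D.co_zero k l i j, D.co_zero k j i l, D.co_zero i l k j]
    · intro h'
      apply h
      rw [h', add_comm]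
    · intro h'
      apply h
      rw [add_comm, h']
    · intro h'
      apply h
      rw [add_comm, h', add_comm]

/-- the highest weight condition -/
theorem sum_co (v : KT ℂ n) (hv : ∀ B ∈ D.ld.Up, dGL ℂ D.ld B v = 0) (i j : Fin n) :
    ∑ k, ∑ l, D.co i j k l • Tab.cc v i j k l = 0 := by
  classical
  by_cases h : D.b j - D.b i ∈ D.Rp
  · have hR := D.mem_Rp.1 h
    have h1 := hv (Finsupp.single (Sum.inr ⟨D.b j - D.b i, hR.1⟩) 1) ⟨⟨D.b j - D.b i, hR.1⟩, 1,
      hR.2, rfl⟩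
    have e0 : D.ld.τ (Finsupp.single (Sum.inr ⟨D.b j - D.b i, hR.1⟩) 1) =
        D.Em0 (D.b j - D.b i) := by
      show D.tau _ = _
      unfold tau
      rw [Finsupp.linearCombination_single, one_smul]
      rfl
    rw [dGL_apply, dG_apply, e0] at h1
    have h2 : ∀ k l : Fin n, D.co i j k l • Tab.cc v i j k l =
        (D.ε (D.b j - D.b i) (D.b i) : ℂ) •
        Cr (k := ℂ) (M := ℂ) n i (An (k := ℂ) (M := ℂ) n j (D.Em0 (D.b j - D.b i) k l •
          Cr (k := ℂ) (M := ℂ) n k (An (k := ℂ) (M := ℂ) n l v))) := by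
      intro k l
      rw [Em0_apply]
      unfold co
      by_cases h3 : D.b k = D.b j - D.b i + D.b l
      · have h4 : D.b k - D.b l = D.b j - D.b i := by rw [h3]; abel
        rw [if_pos ⟨h4, h4 ▸ h⟩, if_pos h3, h4, D.εadd', map_smul, map_smul, smul_smul]
        congr 1
        push_cast
        ring
      · have h4 : ¬ D.b k - D.b l = D.b j - D.b i := by
          intro h4
          apply h3
          rw [← h4]
          abel
        rw [if_neg (fun h5 => h4 h5.1), if_neg h3, zero_smul, zero_smul, map_zero, map_zero,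
          smul_zero]
    rw [sum_congr rfl fun k _ => sum_congr rfl fun l _ => h2 k l]
    rw [sum_congr rfl fun k _ => (smul_sum).symm, ← smul_sum]
    rw [sum_congr rfl fun k _ => (map_sum (Cr (k := ℂ) (M := ℂ) n i) _ _).symm, ← map_sum]
    rw [sum_congr rfl fun k _ => (map_sum (An (k := ℂ) (M := ℂ) n j) _ _).symm, ← map_sum, h1,
      map_zero, map_zero, smul_zero]
  · refine sum_eq_zero fun k _ => sum_eq_zero fun l _ => ?_
    unfold co
    rw [if_neg, zero_smul]
    rintro ⟨h1, h2⟩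
    exact h (h1 ▸ h2)

open Classical in
/-- the off-diagonal terms -/
def FF (v : KT ℂ n) (i j k l : Fin n) : KT ℂ n :=
  if i ≠ j ∧ i ≠ l ∧ k ≠ j ∧ k ≠ l then D.co i j k l • Tab.cc v i j k l else 0

open Classical in
/-- the diagonal terms -/
def GG (v : KT ℂ n) (i j k l : Fin n) : KT ℂ n :=
  if k = j ∧ l = i then D.co i j k l • Tab.cc v i j k l else 0

theorem FF_GG (v : KT ℂ n) (i j k l : Fin n) :
    D.co i j k l • Tab.cc v i j k l = D.FF v i j k l + D.GG v i j k l := by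
  classical
  unfold FF GG
  by_cases h : k = j ∧ l = i
  · rw [if_pos h, if_neg, zero_add]
    rintro ⟨-, h1, -⟩
    exact h1 h.2.symm
  · rw [if_neg h, add_zero]
    by_cases h1 : i ≠ j ∧ i ≠ l ∧ k ≠ j ∧ k ≠ l
    · rw [if_pos h1]
    · rw [if_neg h1]
      have : D.co i j k l = 0 := by
        unfold co
        rw [if_neg]
        rintro ⟨h2, h3⟩
        have h4 := D.isR0_ne_zero (D.mem_Rp.1 h3).1
        apply h1
        refine ⟨?_, ?_, ?_, ?_⟩
        · rintro rfl
          rw [h2, sub_self] at h4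
          exact h4 rfl
        · rintro rfl
          exact h ⟨D.binj (sub_left_inj.1 h2), rfl⟩
        · rintro rfl
          exact h ⟨rfl, D.binj (sub_right_inj.1 h2)⟩
        · rintro rfl
          rw [sub_self] at h4
          exact h4 rfl
      rw [this, zero_smul]

theorem FF_sym (v : KT ℂ n) (i j k l : Fin n) :
    D.FF v i j k l + D.FF v k j i l + (D.FF v i l k j + D.FF v k l i j) = 0 := by
  classical
  unfold FF
  by_cases h : i ≠ j ∧ i ≠ l ∧ k ≠ j ∧ k ≠ l
  · obtain ⟨h1, h2, h3, h4⟩ := h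
    rw [if_pos ⟨h1, h2, h3, h4⟩, if_pos ⟨h3, h4, h1, h2⟩, if_pos ⟨h2, h1, h4, h3⟩,
      if_pos ⟨h4, h3, h2, h1⟩]
    have s1 := Tab.cc_swap13 v i j k l h3.symm h1
    have s2 := Tab.cc_swap24 v i j k l h3.symm h4
    have s3 := Tab.cc_swap24 v k j i l h1.symm h2
    have t1 : Tab.cc v k j i l = -Tab.cc v i j k l := (neg_eq_of_add_eq_zero_right s1).symm
    have t2 : Tab.cc v i l k j = -Tab.cc v i j k l := (neg_eq_of_add_eq_zero_right s2).symm
    have t3 : Tab.cc v k l i j = Tab.cc v i j k l := by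
      rw [← neg_eq_of_add_eq_zero_right s3, t1, neg_neg]
    rw [t1, t2, t3]
    have hc := D.co_id i j k l h2 h4
    have e : D.co i j k l - D.co k j i l - D.co i l k j + D.co k l i j = 0 := by
      linear_combination hc
    calc D.co i j k l • Tab.cc v i j k l + D.co k j i l • -Tab.cc v i j k l +
          (D.co i l k j • -Tab.cc v i j k l + D.co k l i j • Tab.cc v i j k l)
        = (D.co i j k l - D.co k j i l - D.co i l k j + D.co k l i j) • Tab.cc v i j k l := by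
          rw [add_smul, sub_smul, sub_smul, smul_neg, smul_neg]
          abel
      _ = 0 := by rw [e, zero_smul]
  · rw [if_neg h, if_neg (fun h' => h ⟨h'.2.2.1, h'.2.2.2, h'.1, h'.2.1⟩),
      if_neg (fun h' => h ⟨h'.2.1, h'.1, h'.2.2.2, h'.2.2.1⟩),
      if_neg (fun h' => h ⟨h'.2.2.2, h'.2.2.1, h'.2.1, h'.1⟩), add_zero, add_zero]

/-- sums over quadruples -/
theorem swap13 (g : Fin n → Fin n → Fin n → Fin n → KT ℂ n) :
    ∑ i, ∑ j, ∑ k, ∑ l, g k j i l = ∑ i, ∑ j, ∑ k, ∑ l, g i j k l :=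
  swap3 (fun i j k => ∑ l, g i j k l)

theorem swap24 (g : Fin n → Fin n → Fin n → Fin n → KT ℂ n) :
    ∑ i, ∑ j, ∑ k, ∑ l, g i l k j = ∑ i, ∑ j, ∑ k, ∑ l, g i j k l :=
  sum_congr rfl fun i _ => swap3 (fun j k l => g i j k l)

theorem sum_FF (v : KT ℂ n) : ∑ i, ∑ j, ∑ k, ∑ l, D.FF v i j k l = 0 := by
  have h1 : ∑ i, ∑ j, ∑ k, ∑ l, D.FF v k j i l = ∑ i, ∑ j, ∑ k, ∑ l, D.FF v i j k l :=
    swap13 (D.FF v)
  have h2 : ∑ i, ∑ j, ∑ k, ∑ l, D.FF v i l k j = ∑ i, ∑ j, ∑ k, ∑ l, D.FF v i j k l :=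
    swap24 (D.FF v)
  have h3 : ∑ i, ∑ j, ∑ k, ∑ l, D.FF v k l i j = ∑ i, ∑ j, ∑ k, ∑ l, D.FF v i j k l :=
    (swap24 (fun i j k l => D.FF v k j i l)).trans h1
  have h4 : ∑ i, ∑ j, ∑ k, ∑ l, (D.FF v i j k l + D.FF v k j i l +
      (D.FF v i l k j + D.FF v k l i j)) = 0 :=
    sum_eq_zero fun i _ => sum_eq_zero fun j _ => sum_eq_zero fun k _ => sum_eq_zero fun l _ =>
      D.FF_sym v i j k l
  simp only [sum_add_distrib] at h4
  rw [h1, h2, h3] at h4
  generalize (∑ i, ∑ j, ∑ k, ∑ l, D.FF v i j k l) = s at h4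
  have h5 : (4 : ℂ) • s = 0 := by
    rw [← h4, show (4 : ℂ) = 1 + 1 + (1 + 1) by norm_num, add_smul, add_smul, one_smul]
  exact (smul_eq_zero.1 h5).resolve_left (by norm_num)

open Classical in
theorem sum_GG (v : KT ℂ n) : ∑ i, ∑ j, ∑ k, ∑ l, D.GG v i j k l =
    ∑ i, ∑ j, if D.b j - D.b i ∈ D.Rp then Tab.cc v i j j i else 0 := by
  refine sum_congr rfl fun i _ => sum_congr rfl fun j _ => ?_
  rw [sum_eq_single j, sum_eq_single i]
  · unfold GG co
    rw [if_pos ⟨rfl, rfl⟩]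
    by_cases h : D.b j - D.b i ∈ D.Rp
    · rw [if_pos ⟨rfl, h⟩, if_pos h, e_double]
      simp
    · rw [if_neg (fun h' => h h'.2), if_neg h, zero_smul]
  · intro l _ hl
    unfold GG
    rw [if_neg (fun h' => hl h'.2)]
  · simp
  · intro k _ hk
    refine sum_eq_zero fun l _ => ?_
    unfold GG
    rw [if_neg (fun h' => hk h'.1)]
  · simp

/-- positivity -/
theorem highest_zero (v : KT ℂ n) (hv : ∀ B ∈ D.ld.Up, dGL ℂ D.ld B v = 0) (i j : Fin n)
    (hij : D.b j - D.b i ∈ D.Rp) :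
    Cr (k := ℂ) (M := ℂ) n j (An (k := ℂ) (M := ℂ) n i v) = 0 := by
  classical
  have h0 : ∑ i, ∑ j, ∑ k, ∑ l, D.co i j k l • Tab.cc v i j k l = 0 :=
    sum_eq_zero fun i _ => sum_eq_zero fun j _ => D.sum_co v hv i j
  simp only [FF_GG, sum_add_distrib] at h0
  rw [D.sum_FF v, zero_add, D.sum_GG v] at h0
  have h1 : (ip n v (∑ i, ∑ j, if D.b j - D.b i ∈ D.Rp then Tab.cc v i j j i else 0)).re =
      ∑ i, ∑ j, if D.b j - D.b i ∈ D.Rp then
        (ip n (Cr (k := ℂ) (M := ℂ) n j (An (k := ℂ) (M := ℂ) n i v))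
        (Cr (k := ℂ) (M := ℂ) n j (An (k := ℂ) (M := ℂ) n i v))).re else 0 := by
    rw [ip_sum_right, Complex.re_sum]
    refine sum_congr rfl fun i _ => ?_
    rw [ip_sum_right, Complex.re_sum]
    refine sum_congr rfl fun j _ => ?_
    by_cases hP : D.b j - D.b i ∈ D.Rp
    · rw [if_pos hP, if_pos hP, Tab.ip_cc]
    · rw [if_neg hP, if_neg hP, ip_zero_right]
      rfl
  have h2 : ∀ i j, 0 ≤ (if D.b j - D.b i ∈ D.Rp then
      (ip n (Cr (k := ℂ) (M := ℂ) n j (An (k := ℂ) (M := ℂ) n i v))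
        (Cr (k := ℂ) (M := ℂ) n j (An (k := ℂ) (M := ℂ) n i v))).re else 0) := by
    intro i j
    split_ifs
    · exact ip_self_nonneg n _
    · exact le_rfl
  rw [h0, ip_zero_right, Complex.zero_re] at h1
  have h6 := (sum_eq_zero_iff_of_nonneg fun i _ => sum_nonneg fun j _ => h2 i j).1 h1.symm i
    (mem_univ i)
  have h7 := (sum_eq_zero_iff_of_nonneg fun j _ => h2 i j).1 h6 j (mem_univ j)
  rw [if_pos hij] at h7
  exact ip_self_zero n _ h7

/-- an upper set of indices -/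
def Good (T : Finset ℕ) : Prop :=
  T ⊆ range n ∧ ∀ i j : Fin n, (i : ℕ) ∈ T → D.b j - D.b i ∈ D.Rp → (j : ℕ) ∈ T

theorem good_of_cT (v : KT ℂ n) (hv : ∀ B ∈ D.ld.Up, dGL ℂ D.ld B v = 0) (T : Finset ℕ)
    (hT : T ⊆ range n) (hc : cT n T v ≠ 0) : D.Good T := by
  refine ⟨hT, fun i j hi hij => ?_⟩
  by_contra hj
  apply hc
  rw [← cT_N n T i i.2 hi v, ← cT_E n T j j.2 hj, Cr_Cr n j i, map_neg, cT_neg,
    D.highest_zero v hv i j hij, map_zero, map_zero, cT_zero, neg_zero]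

end Lat

end

end Pool.Agent.Helper62.AN
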