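import Pool.Agent.Helper62.AN.A3

set_option autoImplicit false

/-!
# The lower bound for modules with the symmetry of a Levi algebra
-/

namespace Pool.Agent.Helper62.AN

open Finset Pool.Agent.W650 Pool.Agent.Y577.BT Pool.Agent.E8helper33.BE

universe u v w

noncomputable section

namespace Lat

variable {n : ℕ} {Q : Type} [AddCommGroup Q] (D : Lat n Q)

open Classical in
/-- the roots of a set of indices -/
def im (T : Finset ℕ) : Finset Q := (univ.filter fun j : Fin n => (j : ℕ) ∈ T).image D.b

theorem mem_im {T : Finset ℕ} {x : Q} : x ∈ D.im T ↔ ∃ j : Fin n, (j : ℕ) ∈ T ∧ D.b j = x := by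
  classical
  unfold im
  rw [mem_image]
  constructor
  · rintro ⟨j, hj, rfl⟩
    exact ⟨j, (mem_filter.1 hj).2, rfl⟩
  · rintro ⟨j, hj, rfl⟩
    exact ⟨j, mem_filter.2 ⟨mem_univ _, hj⟩, rfl⟩

theorem b_mem_im {T : Finset ℕ} {j : Fin n} : D.b j ∈ D.im T ↔ (j : ℕ) ∈ T := by
  rw [mem_im]
  constructor
  · rintro ⟨i, hi, hij⟩
    rw [← D.binj hij]
    exact hi
  · exact fun h => ⟨j, h, rfl⟩

theorem upper_im {T : Finset ℕ} (hT : D.Good T) : D.Upper (D.im T) where
  sub x hx := by
    obtain ⟨j, _, rfl⟩ := D.mem_im.1 hx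
    exact D.mem_P.2 (D.isP_b j)
  up x hx y hy h := by
    obtain ⟨i, hi, rfl⟩ := D.mem_im.1 hx
    obtain ⟨j, rfl⟩ := D.exists_b (D.mem_P.1 hy)
    exact D.b_mem_im.2 (hT.2 i j hi h)

theorem upper_empty : D.Upper (∅ : Finset Q) where
  sub := empty_subset _
  up x hx := absurd hx (notMem_empty x)

/-- diagonal elements -/
def hh (x : Q) : D.LV := Finsupp.single (Sum.inl x) 1

theorem br_hh (x : Q) (α : D.RT) (c : ℂ) :
    D.ld.br (D.hh x) (Finsupp.single (Sum.inr α) c) =
      ((D.B x α.1 : ℝ) : ℂ) • Finsupp.single (Sum.inr α) c := by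
  show D.brL (Finsupp.single (Sum.inl x) 1) (Finsupp.single (Sum.inr α) c) = _
  rw [brL_single, br0, Finsupp.smul_single, Finsupp.smul_single, one_mul, smul_eq_mul,
    smul_eq_mul, mul_comm]
  push_cast
  rfl

theorem tau_hh (x : Q) : D.ld.τ (D.hh x) = dm fun j => (D.B x (D.b j) : ℝ) := by
  show D.tau (Finsupp.single (Sum.inl x) 1) = _
  unfold tau
  rw [Finsupp.linearCombination_single, one_smul]
  show D.Hm0 x = _
  unfold Hm0 dm
  congr 1

theorem upp_hh {T : Finset Q} (hT : D.Upper T) :
    ∀ B ∈ D.ld.Up, ∃ d : ℝ, 0 < d ∧ D.ld.br (D.hh (D.xT T)) B = (d : ℂ) • B := by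
  rintro B ⟨α, c, h, rfl⟩
  refine ⟨(D.B (D.xT T) α.1 : ℝ), ?_, D.br_hh _ _ _⟩
  exact_mod_cast D.xT_pos hT (D.mem_Rp.2 ⟨α.2, h⟩)

theorem dia_hh (x : Q) : ∀ B ∈ D.ld.Di, D.ld.br (D.hh x) B = 0 := by
  rintro B ⟨y, c, rfl⟩
  show D.brL (Finsupp.single (Sum.inl x) 1) (Finsupp.single (Sum.inl y) c) = _
  rw [brL_single, br0, smul_zero]

/-- every upper set is given by a dominant weight -/
theorem wl {T : Finset ℕ} (hT : D.Good T) :
    WL D.ld (D.hh (D.xT (D.im T))) (fun j => (D.B (D.xT (D.im T)) (D.b j) : ℝ)) (lst n T) where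
  nodup := nodup_lst n T
  lt := fun j hj => ((mem_lst n T j).1 hj).2
  τh := D.tau_hh _
  pos := fun j hj => by
    have h1 := D.b_mem_im.2 ((mem_lst n T j).1 hj).1
    exact_mod_cast D.xT_mem (D.upper_im hT) h1
  neg := fun j hj => by
    have h1 : D.b j ∉ D.im T := fun h => hj ((mem_lst n T j).2 ⟨D.b_mem_im.1 h, j.2⟩)
    exact_mod_cast D.xT_notMem (D.upper_im hT) (D.mem_P.2 (D.isP_b j)) h1
  dia := D.dia_hh _
  upp := D.upp_hh (D.upper_im hT)

open Classical in
/-- the upper sets with `e` elements -/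
def goods (e : ℕ) : Finset (Finset ℕ) :=
  (range n).powerset.filter fun T => D.Good T ∧ T.card = e

theorem mem_goods (e : ℕ) (T : Finset ℕ) : T ∈ D.goods e ↔ D.Good T ∧ T.card = e := by
  classical
  unfold goods
  rw [mem_filter, mem_powerset]
  exact ⟨fun h => h.2, fun h => ⟨h.1.1, h⟩⟩

theorem G_le (e : ℕ) : (koszul zop n).G (e : ℤ) ≤ ⨆ T ∈ D.goods e, Lm D.ld (lst n T) := by
  refine G_le_of_highest (Λ := D.ld) (e : ℤ) _ ?_ ?_ (D.hh (D.xT ∅)) ?_ ?_
  · refine iSup₂_le fun T hT => ?_
    have h1 := (D.mem_goods e T).1 hT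
    have h2 := Lm_le_G (Λ := D.ld) (l := lst n T) zop
    rwa [length_lst n T h1.1.1, h1.2] at h2
  · intro A x hx
    have h1 : (⨆ T ∈ D.goods e, Lm D.ld (lst n T)) ≤
        (⨆ T ∈ D.goods e, Lm D.ld (lst n T)).comap (dGL ℂ D.ld A) := by
      refine iSup₂_le fun T hT y hy => ?_
      have h2 : Lm D.ld (lst n T) ≤ ⨆ T ∈ D.goods e, Lm D.ld (lst n T) :=
        le_iSup₂_of_le T hT le_rfl
      exact h2 (Lm_stable (D.wl ((D.mem_goods e T).1 hT).1) A hy)
    exact h1 hx
  · exact D.upp_hh D.upper_empty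
  · intro v hv hvU
    refine mem_of_cT n v _ fun T hT hc => ?_
    have hg := D.good_of_cT v hvU T hT hc
    have hcard := cT_card zop n T hT (e : ℤ) v hv hc
    have hmem : T ∈ D.goods e := (D.mem_goods e T).2 ⟨hg, by exact_mod_cast hcard⟩
    have h2 : Lm D.ld (lst n T) ≤ ⨆ T ∈ D.goods e, Lm D.ld (lst n T) :=
      le_iSup₂_of_le T hmem le_rfl
    rw [← vL_lst]
    exact h2 vL_mem_Lm

/-- **The lower bound.** -/
theorem choose_le {M : Type v} [NormedAddCommGroup M] [InnerProductSpace ℂ M]
    {X Y : ℕ → M →ₗ[ℂ] M} {ρ : D.LV →ₗ[ℂ] M →ₗ[ℂ] M} [FiniteDimensional ℂ M] [Nontrivial M]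
    (hR : Pool.Agent.E8helper33.BE.Rp D.ld X ρ)
    (hXY : ∀ (j : Fin n) (a b : M), inner ℂ (X j a) b = inner ℂ a (Y j b)) (i : ℕ) :
    n.choose i ≤ Module.finrank ℂ (Hm n X Y (i : ℤ)) := by
  classical
  rw [← finrank_GC]
  refine (Submodule.finrank_mono (D.G_le i)).trans ?_
  refine family_le hR hXY (D.goods i) (fun T => lst n T)
    (fun T => D.hh (D.xT (D.im T))) (fun T j => (D.B (D.xT (D.im T)) (D.b j) : ℝ))
    (fun T hT => D.wl ((D.mem_goods i T).1 hT).1) i (fun T hT => ?_) (fun T hT T' hT' hne => ?_)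
  · have h1 := (D.mem_goods i T).1 hT
    rw [length_lst n T h1.1.1, h1.2]
  · have h1 := (D.mem_goods i T).1 hT
    have h2 := (D.mem_goods i T').1 hT'
    by_contra hcon
    push Not at hcon
    apply hne
    refine eq_of_subset_of_card_le (fun c hc => ?_) (by rw [h1.2, h2.2])
    exact ((mem_lst n T' c).1 (hcon c ((mem_lst n T c).2 ⟨hc, mem_range.1 (h1.1.1 hc)⟩))).1

/-! ### Modules -/

/-- A unitary action of the Levi algebra on `M`, compatible with the multiplication by the `f x`. -/
structure Acts {S : Type w} [CommRing S] [Algebra ℂ S] (f : Q → S) (M : Type v)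
    [NormedAddCommGroup M] [InnerProductSpace ℂ M] [Module S M]
    (H E : Q → Module.End ℂ M) : Prop where
  rel : D.Rel H E
  fH : ∀ x y, D.IsP y → ∀ m : M, H x (f y • m) = f y • H x m + (D.B x y : ℂ) • f y • m
  fE1 : ∀ x y, D.IsR0 x → D.IsP y → D.B x y = -1 → ∀ m : M,
    E x (f y • m) = f y • E x m + (D.ε x y : ℂ) • f (x + y) • m
  fE0 : ∀ x y, D.IsR0 x → D.IsP y → 0 ≤ D.B x y → ∀ m : M, E x (f y • m) = f y • E x m
  adjH : ∀ x (a b : M), inner ℂ (H x a) b = inner ℂ a (H x b)
  adjE : ∀ x, D.IsR0 x → ∀ a b : M, inner ℂ (E x a) b = -inner ℂ a (E (-x) b)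

/-- **The inequality** for the data of a lattice. -/
theorem main (S : Type w) [CommRing S] [Algebra ℂ S] (f : Q → S)
    (hreg : RegularSeq fun j => f (D.b j))
    [Module.Finite ℂ (S ⧸ Ideal.span (Set.range fun j => f (D.b j)))]
    (M : Type v) [NormedAddCommGroup M] [InnerProductSpace ℂ M] [FiniteDimensional ℂ M]
    [Nontrivial M] [Module S M] [IsScalarTower ℂ S M]
    (H E : Q → Module.End ℂ M) (hA : D.Acts f M H E)
    (R : FreeRes S M) (i : ℕ) :
    n.choose i ≤ Module.finrank ℂ (S ⧸ Ideal.span (Set.range fun j => f (D.b j))) *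
      R.rank i := by
  classical
  let g : Fin n → S := fun j => f (D.b j)
  let Y : ℕ → M →ₗ[ℂ] M := fun j => LinearMap.adjoint (opv ℂ (ext0 g) M j)
  have hXY : ∀ (j : Fin n) (a b : M), inner ℂ (opv ℂ (ext0 g) M j a) b = inner ℂ a (Y j b) :=
    fun j a b => (LinearMap.adjoint_inner_right _ a b).symm
  have hX : ∀ (j : Fin n) (x : M), opv ℂ (ext0 g) M j x = f (D.b j) • x :=
    fun j x => by
      rw [opv_apply, ext0_apply]
  let ρ : D.LV →ₗ[ℂ] M →ₗ[ℂ] M := Finsupp.linearCombination ℂ (D.gen H E)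
  have hρ : ∀ (i : D.Gn) (c : ℂ) (m : M), ρ (Finsupp.single i c) m = c • D.gen H E i m := by
    intro i c m
    show (Finsupp.linearCombination ℂ (D.gen H E)) (Finsupp.single i c) m = _
    rw [Finsupp.linearCombination_single]
    rfl
  have hR : Pool.Agent.E8helper33.BE.Rp D.ld (opv ℂ (ext0 g) M) ρ :=
    { lie := fun A B x => by
        have h1 := congrArg (fun T : Module.End ℂ M => T x) (hA.rel.br A B)
        have h2 : ρ (D.ld.br A B) x = ρ A (ρ B x) - ρ B (ρ A x) := h1
        rw [h2]
        abel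
      eqv := fun A j m => by
        induction A using Finsupp.induction_linear with
        | zero =>
          simp
        | add A A' h h' =>
          rw [map_add, LinearMap.add_apply, h, h', LinearMap.add_apply, map_add, map_add]
          simp only [Matrix.add_apply, add_smul, sum_add_distrib]
          abel
        | single i c =>
          have e1 : D.ld.τ (Finsupp.single i c) = c • D.gen D.Hm0 D.Em0 i := by
            show D.tau (Finsupp.single i c) = _
            unfold tau
            rw [Finsupp.linearCombination_single]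
          rw [e1, hρ, hρ, map_smul]
          simp only [Matrix.smul_apply, smul_assoc, ← smul_sum, ← smul_add]
          congr 1
          simp only [hX]
          rcases i with x | α
          · show H x (f (D.b j) • m) = f (D.b j) • H x m + ∑ k, D.Hm0 x k j • f (D.b k) • m
            rw [hA.fH x (D.b j) (D.isP_b j) m, sum_eq_single j]
            · unfold Hm0
              rw [Matrix.diagonal_apply_eq]
            · intro k _ hk
              unfold Hm0
              rw [Matrix.diagonal_apply_ne _ hk, zero_smul]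
            · simp
          · show E α.1 (f (D.b j) • m) = f (D.b j) • E α.1 m +
              ∑ k, D.Em0 α.1 k j • f (D.b k) • m
            by_cases h : D.B α.1 (D.b j) = -1
            · obtain ⟨k, hk⟩ := D.exists_b ((D.isP_add_iff α.2 (D.isP_b j)).2 h)
              rw [hA.fE1 α.1 (D.b j) α.2 (D.isP_b j) h, sum_eq_single k]
              · rw [Em0_apply, if_pos hk, hk]
              · intro l _ hl
                rw [Em0_apply, if_neg (fun h3 : D.b l = α.1 + D.b j =>
                  hl (D.binj (h3.trans hk.symm))), zero_smul]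
              · simp
            · have h0 : 0 ≤ D.B α.1 (D.b j) := by
                rcases D.RP_cases α.2 (D.isP_b j) with h1 | h1 | h1
                · exact absurd h1 h
                · omega
                · omega
              rw [hA.fE0 α.1 (D.b j) α.2 (D.isP_b j) h0, sum_eq_zero, add_zero]
              intro k _
              rw [Em0_apply, if_neg, zero_smul]
              intro h3
              exact h ((D.isP_add_iff α.2 (D.isP_b j)).1 (h3 ▸ D.isP_b k))
      adj := fun A a b => by
        induction A using Finsupp.induction_linear with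
        | zero =>
          show inner ℂ (ρ 0 a) b = inner ℂ a (ρ (D.stH 0) b)
          simp
        | add A A' h h' =>
          show inner ℂ (ρ (A + A') a) b = inner ℂ a (ρ (D.stH (A + A')) b)
          rw [map_add, map_add, map_add, LinearMap.add_apply, LinearMap.add_apply,
            inner_add_left, inner_add_right]
          exact congrArg₂ (· + ·) h h'
        | single i c =>
          show inner ℂ (ρ (Finsupp.single i c) a) b = inner ℂ a (ρ (D.stH (Finsupp.single i c)) b)
          rw [stH_single, hρ, hρ, inner_smul_left, inner_smul_right]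
          rcases i with x | α
          · show (starRingEnd ℂ) c * inner ℂ (H x a) b =
              (1 * (starRingEnd ℂ) c) * inner ℂ a (H x b)
            rw [hA.adjH, one_mul]
          · show (starRingEnd ℂ) c * inner ℂ (E α.1 a) b =
              (-1 * (starRingEnd ℂ) c) * inner ℂ a (E (-α.1) b)
            rw [hA.adjE α.1 α.2]
            ring }
  exact of_Hm S n g hreg M Y hXY R i _ (D.choose_le hR hXY i)

end Lat

end

end Pool.Agent.Helper62.AN
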