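import Pool.Agent.Helper62.AN.A4

set_option autoImplicit false

/-!
# Root lattices given by a Gram matrix
-/

namespace Pool.Agent.Helper62.AN

open Finset Pool.Agent.Y577.BT

universe v w

/-- The scalar product on `ℤ ^ r` with the Gram matrix `A`. -/
def form {r : ℕ} (A : Matrix (Fin r) (Fin r) ℤ) (x y : Fin r → ℤ) : ℤ :=
  ∑ i, ∑ j, x i * A i j * y j

/-- The exponent of the standard cocycle. -/
def expo {r : ℕ} (A : Matrix (Fin r) (Fin r) ℤ) (x y : Fin r → ℤ) : ℤ :=
  ∑ i, x i * y i + ∑ i, ∑ j, if i < j then x i * A i j * y j else 0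

/-- The standard cocycle: the sign `(-1) ^ expo A x y`. -/
def cocyc {r : ℕ} (A : Matrix (Fin r) (Fin r) ℤ) (x y : Fin r → ℤ) : ℤ :=
  ((expo A x y).negOnePow : ℤ)

/-- The roots of degree `d` of the lattice with the Gram matrix `A` and the grading `wt`. -/
def Root {r : ℕ} (A : Matrix (Fin r) (Fin r) ℤ) (wt : (Fin r → ℤ) →+ ℤ) (d : ℤ)
    (x : Fin r → ℤ) : Prop := form A x x = 2 ∧ wt x = d

/-- An action of the Levi algebra of degree zero on `M`, by the operators `H x` of the elements and
`E α` of the roots of degree zero of the lattice. -/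
structure LeviRel {r : ℕ} (A : Matrix (Fin r) (Fin r) ℤ) (wt : (Fin r → ℤ) →+ ℤ)
    {M : Type v} [AddCommGroup M] [Module ℂ M] (H E : (Fin r → ℤ) → Module.End ℂ M) : Prop where
  /-- the operators `H` commute -/
  HH : ∀ x y, H x * H y = H y * H x
  /-- `E α` has the weight `α` -/
  HE : ∀ x α, Root A wt 0 α → H x * E α - E α * H x = (form A x α : ℂ) • E α
  /-- `[E α, E β] = ε(α, β) E (α + β)` if `α + β` is a root -/
  EE : ∀ α β, Root A wt 0 α → Root A wt 0 β → form A α β = -1 →
    E α * E β - E β * E α = (cocyc A α β : ℂ) • E (α + β)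
  /-- `[E α, E (-α)] = - H α` -/
  EF : ∀ α, Root A wt 0 α → E α * E (-α) - E (-α) * E α = -H α
  /-- `[E α, E β] = 0` if `α + β` is neither a root nor zero -/
  E0 : ∀ α β, Root A wt 0 α → Root A wt 0 β → 0 ≤ form A α β → E α * E β = E β * E α

/-- The action is compatible with the multiplication by the elements `f β` for the roots `β` of
degree one. -/
structure LeviEqv {S : Type w} [CommRing S] {r : ℕ} (A : Matrix (Fin r) (Fin r) ℤ)
    (wt : (Fin r → ℤ) →+ ℤ) (f : (Fin r → ℤ) → S) {M : Type v} [AddCommGroup M] [Module ℂ M]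
    [Module S M] (H E : (Fin r → ℤ) → Module.End ℂ M) : Prop where
  /-- `f β` has the weight `β` -/
  fH : ∀ x β, Root A wt 1 β → ∀ m, H x (f β • m) = f β • H x m + (form A x β : ℂ) • f β • m
  /-- `[E α, f β] = ε(α, β) f (α + β)` if `α + β` is a root -/
  fE : ∀ α β, Root A wt 0 α → Root A wt 1 β → form A α β = -1 → ∀ m,
    E α (f β • m) = f β • E α m + (cocyc A α β : ℂ) • f (α + β) • m
  /-- `[E α, f β] = 0` otherwise -/
  fE0 : ∀ α β, Root A wt 0 α → Root A wt 1 β → 0 ≤ form A α β → ∀ m,
    E α (f β • m) = f β • E α m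

/-- The action is unitary. -/
structure LeviAdj {r : ℕ} (A : Matrix (Fin r) (Fin r) ℤ) (wt : (Fin r → ℤ) →+ ℤ) {M : Type v}
    [NormedAddCommGroup M] [InnerProductSpace ℂ M] (H E : (Fin r → ℤ) → Module.End ℂ M) :
    Prop where
  /-- `H x` is selfadjoint -/
  adjH : ∀ x (a b : M), inner ℂ (H x a) b = inner ℂ a (H x b)
  /-- the adjoint of `E α` is `- E (-α)` -/
  adjE : ∀ α, Root A wt 0 α → ∀ a b : M, inner ℂ (E α a) b = -inner ℂ a (E (-α) b)

/-- A unitary action of the Levi algebra of degree zero on `M` which is compatible with the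
multiplication by the `f β`, `β` a root of degree one. -/
structure LeviAction {S : Type w} [CommRing S] {r : ℕ} (A : Matrix (Fin r) (Fin r) ℤ)
    (wt : (Fin r → ℤ) →+ ℤ) (f : (Fin r → ℤ) → S) {M : Type v} [NormedAddCommGroup M]
    [InnerProductSpace ℂ M] [Module S M] (H E : (Fin r → ℤ) → Module.End ℂ M) : Prop where
  rel : LeviRel A wt H E
  eqv : LeviEqv A wt f H E
  adj : LeviAdj A wt H E

/-- a basis of `𝔤₁`: the roots of degree one, numbered -/
abbrev Roots1 (r n : ℕ) (A : Matrix (Fin r) (Fin r) ℤ) (wt : (Fin r → ℤ) →+ ℤ) : Type :=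
  Fin n ≃ {x : Fin r → ℤ // Root A wt 1 x}

/-- the quotient of the ring by the sequence -/
abbrev Quo {S : Type w} [CommRing S] {r n : ℕ} {A : Matrix (Fin r) (Fin r) ℤ}
    {wt : (Fin r → ℤ) →+ ℤ} (e : Roots1 r n A wt) (f : (Fin r → ℤ) → S) : Type w :=
  S ⧸ Ideal.span (Set.range fun j => f (e j).1)

section lattice

variable {r : ℕ} {A : Matrix (Fin r) (Fin r) ℤ}

theorem form_add (x y z : Fin r → ℤ) : form A (x + y) z = form A x z + form A y z := by
  unfold form
  rw [← sum_add_distrib]
  refine sum_congr rfl fun i _ => ?_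
  rw [← sum_add_distrib]
  refine sum_congr rfl fun j _ => ?_
  rw [Pi.add_apply]
  ring

theorem form_symm (hA : A.IsSymm) (x y : Fin r → ℤ) : form A x y = form A y x := by
  unfold form
  rw [sum_comm]
  refine sum_congr rfl fun i _ => sum_congr rfl fun j _ => ?_
  rw [hA.apply i j]
  ring

theorem expo_add (x y z : Fin r → ℤ) : expo A (x + y) z = expo A x z + expo A y z := by
  unfold expo
  have e1 : ∑ i, (x + y) i * z i = ∑ i, x i * z i + ∑ i, y i * z i := by
    rw [← sum_add_distrib]
    refine sum_congr rfl fun i _ => ?_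
    rw [Pi.add_apply]
    ring
  have e2 : (∑ i, ∑ j, if i < j then (x + y) i * A i j * z j else 0) =
      (∑ i, ∑ j, if i < j then x i * A i j * z j else 0) +
        ∑ i, ∑ j, if i < j then y i * A i j * z j else 0 := by
    rw [← sum_add_distrib]
    refine sum_congr rfl fun i _ => ?_
    rw [← sum_add_distrib]
    refine sum_congr rfl fun j _ => ?_
    rw [Pi.add_apply]
    split_ifs
    · ring
    · ring
  rw [e1, e2]
  ring

theorem expo_add' (x y z : Fin r → ℤ) : expo A x (y + z) = expo A x y + expo A x z := by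
  unfold expo
  have e1 : ∑ i, x i * (y + z) i = ∑ i, x i * y i + ∑ i, x i * z i := by
    rw [← sum_add_distrib]
    refine sum_congr rfl fun i _ => ?_
    rw [Pi.add_apply]
    ring
  have e2 : (∑ i, ∑ j, if i < j then x i * A i j * (y + z) j else 0) =
      (∑ i, ∑ j, if i < j then x i * A i j * y j else 0) +
        ∑ i, ∑ j, if i < j then x i * A i j * z j else 0 := by
    rw [← sum_add_distrib]
    refine sum_congr rfl fun i _ => ?_
    rw [← sum_add_distrib]
    refine sum_congr rfl fun j _ => ?_
    rw [Pi.add_apply]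
    split_ifs
    · ring
    · ring
  rw [e1, e2]
  ring

theorem expo_swap (hA : A.IsSymm) (hd : ∀ i, A i i = 2) (x y : Fin r → ℤ) :
    expo A x y + expo A y x = form A x y := by
  unfold expo form
  have e1 : (∑ i, ∑ j, if i < j then y i * A i j * x j else 0) =
      ∑ i, ∑ j, if j < i then x i * A i j * y j else 0 := by
    rw [sum_comm]
    refine sum_congr rfl fun i _ => sum_congr rfl fun j _ => ?_
    by_cases h : j < i
    · rw [if_pos h, if_pos h, ← hA.apply i j]
      ring
    · rw [if_neg h, if_neg h]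
  have e2 : ∑ i, x i * y i + ∑ i, y i * x i = ∑ i, ∑ j, if i = j then x i * A i j * y j else 0 := by
    rw [← sum_add_distrib]
    refine sum_congr rfl fun i _ => ?_
    rw [sum_ite_eq univ i, if_pos (mem_univ i), hd]
    ring
  have e3 : ∑ i, ∑ j, x i * A i j * y j = (∑ i, ∑ j, if i = j then x i * A i j * y j else 0) +
      (∑ i, ∑ j, if i < j then x i * A i j * y j else 0) +
      ∑ i, ∑ j, if j < i then x i * A i j * y j else 0 := by
    rw [← sum_add_distrib, ← sum_add_distrib]
    refine sum_congr rfl fun i _ => ?_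
    rw [← sum_add_distrib, ← sum_add_distrib]
    refine sum_congr rfl fun j _ => ?_
    rcases lt_trichotomy i j with h | h | h
    · rw [if_neg h.ne, if_pos h, if_neg h.not_gt]
      ring
    · subst h
      simp
    · rw [if_neg h.ne', if_neg h.not_gt, if_pos h]
      ring
  rw [e3, ← e2, e1]
  ring

/-- positive elements, for the lexicographic order -/
def lexPos (x : Fin r → ℤ) : Prop := ∃ i, 0 < x i ∧ ∀ j, j < i → x j = 0

theorem lexPos_add {x y : Fin r → ℤ} (hx : lexPos x) (hy : lexPos y) : lexPos (x + y) := by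
  obtain ⟨i, hi, hi'⟩ := hx
  obtain ⟨k, hk, hk'⟩ := hy
  rcases lt_trichotomy i k with h | h | h
  · refine ⟨i, ?_, fun j hj => ?_⟩
    · rw [Pi.add_apply, hk' i h, add_zero]
      exact hi
    · rw [Pi.add_apply, hi' j hj, hk' j (hj.trans h), add_zero]
  · subst h
    refine ⟨i, ?_, fun j hj => ?_⟩
    · rw [Pi.add_apply]
      exact add_pos hi hk
    · rw [Pi.add_apply, hi' j hj, hk' j hj, add_zero]
  · refine ⟨k, ?_, fun j hj => ?_⟩
    · rw [Pi.add_apply, hi' k h, zero_add]
      exact hk
    · rw [Pi.add_apply, hk' j hj, hi' j (hj.trans h), add_zero]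

theorem lexPos_or {x : Fin r → ℤ} (hx : x ≠ 0) : lexPos x ∨ lexPos (-x) := by
  classical
  have hne : (univ.filter fun i : Fin r => x i ≠ 0).Nonempty := by
    by_contra h
    apply hx
    ext i
    by_contra hi
    exact h ⟨i, mem_filter.2 ⟨mem_univ _, hi⟩⟩
  set i := (univ.filter fun i : Fin r => x i ≠ 0).min' hne with hi
  have h1 : x i ≠ 0 := (mem_filter.1 (min'_mem _ hne)).2
  have h2 : ∀ j, j < i → x j = 0 := by
    intro j hj
    by_contra hj'
    have := min'_le (univ.filter fun i : Fin r => x i ≠ 0) j (mem_filter.2 ⟨mem_univ _, hj'⟩)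
    exact absurd hj (not_lt.2 this)
  rcases lt_or_gt_of_ne h1 with h3 | h3
  · right
    refine ⟨i, ?_, fun j hj => ?_⟩
    · rw [Pi.neg_apply]
      omega
    · rw [Pi.neg_apply, h2 j hj, neg_zero]
  · left
    exact ⟨i, h3, h2⟩

theorem form_eq (x y : Fin r → ℤ) : form A x y = ∑ j, (∑ i, x i * A i j) * y j := by
  unfold form
  rw [sum_comm]
  refine sum_congr rfl fun j _ => ?_
  rw [sum_mul]

theorem form_single (x : Fin r → ℤ) (i : Fin r) :
    form A x (Pi.single i 1) = ∑ k, x k * A k i := by
  classical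
  rw [form_eq, sum_eq_single i]
  · rw [Pi.single_eq_same, mul_one]
  · intro j _ hj
    rw [Pi.single_eq_of_ne hj, mul_zero]
  · simp

/-- there are only finitely many roots -/
theorem roots_finite (hA : A.IsSymm) (hd : ∀ i, A i i = 2)
    (hpos : ∀ x : Fin r → ℤ, x ≠ 0 → 0 < form A x x) :
    {x : Fin r → ℤ | form A x x = 2}.Finite := by
  classical
  have hnn : ∀ x : Fin r → ℤ, 0 ≤ form A x x := by
    intro x
    by_cases h : x = 0
    · rw [h]
      unfold form
      simp
    · exact (hpos x h).le
  have hneg : ∀ x y : Fin r → ℤ, form A (-x) y = -form A x y := by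
    intro x y
    have h := form_add (A := A) x (-x) y
    rw [add_neg_cancel] at h
    have h0 : form A 0 y = 0 := by
      unfold form
      simp
    rw [h0] at h
    linarith
  have hs := form_symm (A := A) hA
  have hquad : ∀ x y : Fin r → ℤ, form A (x + y) (x + y) =
      form A x x + 2 * form A x y + form A y y := by
    intro x y
    rw [form_add, hs x (x + y), hs y (x + y), form_add, form_add, hs y x]
    ring
  refine Set.Finite.of_injOn (f := fun x : Fin r → ℤ => fun i => ∑ k, x k * A k i)
    (t := Set.Icc (fun _ => -2) (fun _ => 2)) ?_ ?_ (Set.finite_Icc _ _)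
  · intro x hx
    have hx2 : form A x x = 2 := hx
    have key : ∀ i, -2 ≤ form A x (Pi.single i 1) ∧ form A x (Pi.single i 1) ≤ 2 := by
      intro i
      have h1 : form A (Pi.single i 1) (Pi.single i 1) = 2 := by
        rw [form_single, sum_eq_single i]
        · rw [Pi.single_eq_same, hd, one_mul]
        · intro j _ hj
          rw [Pi.single_eq_of_ne hj, zero_mul]
        · simp
      have h2 := hquad x (Pi.single i 1)
      have h3 := hquad (-x) (Pi.single i 1)
      have h4 := hnn (x + Pi.single i 1)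
      have h5 := hnn (-x + Pi.single i 1)
      rw [hneg, hs x (-x), hneg, hneg] at h3
      omega
    refine ⟨fun i => ?_, fun i => ?_⟩
    · have := (key i).1
      rw [form_single] at this
      exact this
    · have := (key i).2
      rw [form_single] at this
      exact this
  · intro x _ y _ hxy
    by_contra hne
    have h1 := hpos (x + -y) (by
      intro h
      exact hne (by rw [← sub_eq_zero, sub_eq_add_neg, h]))
    have h2 : form A (x + -y) (x + -y) = 0 := by
      rw [form_add, hneg, form_eq x, form_eq y]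
      have h3 : ∀ j, ∑ i, x i * A i j = ∑ i, y i * A i j := fun j => congrFun hxy j
      simp only [h3]
      ring
    omega

/-- the data of a lattice given by a Gram matrix -/
noncomputable def latOf {n : ℕ} (A : Matrix (Fin r) (Fin r) ℤ) (hA : A.IsSymm) (hd : ∀ i, A i i = 2)
    (hpos : ∀ x : Fin r → ℤ, x ≠ 0 → 0 < form A x x) (wt : (Fin r → ℤ) →+ ℤ)
    (hwt : ∀ x, form A x x = 2 → wt x ≤ 1)
    (e : Roots1 r n A wt) : Lat n (Fin r → ℤ) where
  B := form A
  Badd := form_add
  Bsymm := form_symm hA
  Bpos := hpos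
  ε := cocyc A
  εadd x y z := by
    unfold cocyc
    rw [expo_add, Int.negOnePow_add, Units.val_mul]
  εadd' x y z := by
    unfold cocyc
    rw [expo_add', Int.negOnePow_add, Units.val_mul]
  εsq x y := by
    unfold cocyc
    rw [← Units.val_mul, Int.units_mul_self, Units.val_one]
  εeven x y h := by
    unfold cocyc
    rw [← expo_swap hA hd] at h
    rw [(Int.negOnePow_eq_iff _ _).2]
    rw [Int.even_sub]
    rwa [Int.even_add] at h
  εodd x y h := by
    unfold cocyc
    rw [← expo_swap hA hd, Int.even_add] at h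
    have h1 : (expo A x y).negOnePow = -(expo A y x).negOnePow := by
      rw [← Int.negOnePow_succ, Int.negOnePow_eq_iff]
      rw [Int.even_sub, Int.even_add_one]
      tauto
    rw [h1, Units.val_neg]
  εroot x h := by
    unfold cocyc
    rw [← expo_swap hA hd] at h
    have h1 : expo A x x = 1 := by omega
    rw [h1]
    simp
  pos := lexPos
  pos_add x y := lexPos_add
  pos_or x := lexPos_or
  pos_zero := by
    rintro ⟨i, hi, -⟩
    simp at hi
  wt := wt
  short := hwt
  R0 := ((roots_finite hA hd hpos).subset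
    (fun x (hx : x ∈ {x : Fin r → ℤ | form A x x = 2 ∧ wt x = 0}) => hx.1)).toFinset
  mem_R0 x := by
    rw [Set.Finite.mem_toFinset]
    rfl
  b j := (e j).1
  binj := fun i j h => e.injective (Subtype.ext h)
  bP j := (e j).2
  bsurj x h1 h2 := ⟨e.symm ⟨x, h1, h2⟩, by rw [e.apply_symm_apply]⟩

end lattice

/-- **The inequality** for root lattices given by a Gram matrix. -/
theorem main (S : Type w) [CommRing S] [Algebra ℂ S] (r n : ℕ)
    (A : Matrix (Fin r) (Fin r) ℤ) (hA : A.IsSymm) (hd : ∀ i, A i i = 2)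
    (hpos : ∀ x : Fin r → ℤ, x ≠ 0 → 0 < form A x x) (wt : (Fin r → ℤ) →+ ℤ)
    (hwt : ∀ x, form A x x = 2 → wt x ≤ 1) (e : Roots1 r n A wt)
    (f : (Fin r → ℤ) → S) (hreg : RegularSeq fun j => f (e j).1) [Module.Finite ℂ (Quo e f)]
    (M : Type v) [NormedAddCommGroup M] [InnerProductSpace ℂ M] [FiniteDimensional ℂ M]
    [Nontrivial M] [Module S M] [IsScalarTower ℂ S M]
    (H E : (Fin r → ℤ) → Module.End ℂ M) (hact : LeviAction A wt f H E)
    (R : FreeRes S M) (i : ℕ) :
    n.choose i ≤ Module.finrank ℂ (Quo e f) * R.rank i := by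
  have hacts : (latOf A hA hd hpos wt hwt e).Acts f M H E :=
    { rel :=
        { HH := hact.rel.HH
          HE := hact.rel.HE
          EE := hact.rel.EE
          EF := hact.rel.EF
          E0 := hact.rel.E0 }
      fH := hact.eqv.fH
      fE1 := hact.eqv.fE
      fE0 := hact.eqv.fE0
      adjH := hact.adj.adjH
      adjE := hact.adj.adjE }
  have hfin : Module.Finite ℂ
      (S ⧸ Ideal.span (Set.range fun j => f ((latOf A hA hd hpos wt hwt e).b j))) :=
    ‹Module.Finite ℂ (Quo e f)›
  exact (latOf A hA hd hpos wt hwt e).main S f hreg M H E hacts R i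

end Pool.Agent.Helper62.AN
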